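import Pool.Agent.Q91.FamTop
import Pool.Agent.Q91.FinSign

/-!
# An irreducible coset space with an abelian minimal normal subgroup which is not self-centralising
-/

set_option autoImplicit false

open Set Filter Topology Equiv Pool.Agent.Q91.FamTop Pool.Agent.Q91.FinSign

namespace Pool.Agent.Results.MP_f36f0e_al.AbelianNotSelfCentralising

/-- `G ⧸ H` is an irreducible coset space: `H` is maximal among the proper closed subgroups. -/
def IrreducibleCoset {G : Type} [Group G] [TopologicalSpace G] (H : Subgroup G) : Prop :=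
  IsClosed (H : Set G) ∧ H ≠ ⊤ ∧
    ∀ K : Subgroup G, IsClosed (K : Set G) → H ≤ K → K = H ∨ K = ⊤

/-- `M` is minimal among the nontrivial closed normal subgroups. -/
def MinClosedNormal {G : Type} [Group G] [TopologicalSpace G] (M : Subgroup G) : Prop :=
  (IsClosed (M : Set G) ∧ M.Normal ∧ M ≠ ⊥) ∧
    ∀ N : Subgroup G, IsClosed (N : Set G) → N.Normal → N ≠ ⊥ → N ≤ M → N = M

/-- the module -/
abbrev V : Type := ℕ →₀ ZMod 2

/-- permutation of the coordinates -/
noncomputable def act (h : FSym) : V ≃+ V := Finsupp.domCongr (h : Perm ℕ)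

theorem act_apply (h : FSym) (A : V) (i : ℕ) : act h A i = A ((h : Perm ℕ)⁻¹ i) := rfl

theorem act_single (h : FSym) (i : ℕ) (a : ZMod 2) :
    act h (Finsupp.single i a) = Finsupp.single ((h : Perm ℕ) i) a := by
  show Finsupp.equivMapDomain (h : Perm ℕ) (Finsupp.single i a) = _
  rw [Finsupp.equivMapDomain_single]

theorem act_mul (h k : FSym) (A : V) : act (h * k) A = act h (act k A) := by
  ext i
  rw [act_apply, act_apply, act_apply, Subgroup.coe_mul, mul_inv_rev, Perm.mul_apply]

theorem act_one (A : V) : act 1 A = A := by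
  ext i
  rw [act_apply]
  simp

/-- the group -/
@[ext] structure GG where
  /-- the vector part -/
  A : V
  /-- the permutation part -/
  h : FSym

noncomputable instance : Mul GG := ⟨fun x y => ⟨x.A + act x.h y.A, x.h * y.h⟩⟩
noncomputable instance : One GG := ⟨⟨0, 1⟩⟩
noncomputable instance : Inv GG := ⟨fun x => ⟨-act x.h⁻¹ x.A, x.h⁻¹⟩⟩

theorem mul_A (x y : GG) : (x * y).A = x.A + act x.h y.A := rfl
theorem mul_h (x y : GG) : (x * y).h = x.h * y.h := rfl
theorem one_A : (1 : GG).A = 0 := rfl
theorem one_h : (1 : GG).h = 1 := rfl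
theorem inv_A (x : GG) : x⁻¹.A = -act x.h⁻¹ x.A := rfl
theorem inv_h (x : GG) : x⁻¹.h = x.h⁻¹ := rfl

noncomputable instance : Group GG := Group.ofLeftAxioms
  (fun x y z => by
    apply GG.ext
    · rw [mul_A, mul_A, mul_A, mul_A, mul_h, act_mul, map_add, add_assoc]
    · rw [mul_h, mul_h, mul_h, mul_h, mul_assoc])
  (fun x => by
    apply GG.ext
    · rw [mul_A, one_A, one_h, act_one, zero_add]
    · rw [mul_h, one_h, one_mul])
  (fun x => by
    apply GG.ext
    · rw [mul_A, inv_A, inv_h, one_A, neg_add_cancel]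
    · rw [mul_h, inv_h, one_h, inv_mul_cancel])

/-- parity -/
noncomputable def par : V →+ ZMod 2 := Finsupp.liftAddHom fun _ : ℕ => AddMonoidHom.id (ZMod 2)

theorem par_single (i : ℕ) (a : ZMod 2) : par (Finsupp.single i a) = a := by
  unfold par
  rw [Finsupp.liftAddHom_apply_single]
  rfl

theorem par_act (h : FSym) (A : V) : par (act h A) = par A := by
  have : par.comp (act h).toAddMonoidHom = par := by
    apply Finsupp.addHom_ext
    intro i a
    show par (act h (Finsupp.single i a)) = par (Finsupp.single i a)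
    rw [act_single, par_single, par_single]
  exact DFunLike.congr_fun this A

/-- the sign of a parity -/
def u (a : ZMod 2) : ℤˣ := if a = 0 then 1 else -1

theorem u_add (a b : ZMod 2) : u (a + b) = u a * u b := by
  revert a b
  decide

theorem u_eq_one {a : ZMod 2} : u a = 1 ↔ a = 0 := by
  revert a
  decide

/-- the character -/
noncomputable def χ (x : GG) : ℤˣ := u (par x.A) * fsgn x.h

theorem χ_mul (x y : GG) : χ (x * y) = χ x * χ y := by
  unfold χ
  rw [mul_A, mul_h, map_add, par_act, u_add, map_mul]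
  exact mul_mul_mul_comm _ _ _ _

theorem χ_inv (x : GG) : χ x⁻¹ = (χ x)⁻¹ := by
  rw [eq_inv_iff_mul_eq_one, ← χ_mul, inv_mul_cancel]
  unfold χ
  rw [one_A, one_h, map_zero, map_one]
  rfl

/-- the coordinates defining the topology -/
noncomputable def c (i : ℕ) (x : GG) : ZMod 2 × ℕ × ℕ × ℤˣ :=
  (x.A i, (x.h : Perm ℕ) i, (x.h : Perm ℕ)⁻¹ i, χ x)

theorem c_eq {i : ℕ} {x y : GG} : c i x = c i y ↔ x.A i = y.A i ∧
    (x.h : Perm ℕ) i = (y.h : Perm ℕ) i ∧ (x.h : Perm ℕ)⁻¹ i = (y.h : Perm ℕ)⁻¹ i ∧ χ x = χ y := by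
  simp [c, Prod.ext_iff]

noncomputable instance : TopologicalSpace GG := famTop c

instance : IsTopologicalGroup GG := by
  classical
  refine isTopologicalGroup c ?_ ?_
  · intro i g h
    refine ⟨{i, (g.h : Perm ℕ)⁻¹ i, (h.h : Perm ℕ) i}, fun g' h' hg hh => ?_⟩
    have g1 := c_eq.mp (hg i (by simp))
    have g2 := c_eq.mp (hg ((h.h : Perm ℕ) i) (by simp))
    have h1 := c_eq.mp (hh i (by simp))
    have h2 := c_eq.mp (hh ((g.h : Perm ℕ)⁻¹ i) (by simp))
    rw [c_eq]
    refine ⟨?_, ?_, ?_, ?_⟩
    · rw [mul_A, mul_A, Finsupp.add_apply, Finsupp.add_apply, act_apply, act_apply, g1.1, g1.2.2.1,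
        h2.1]
    · rw [mul_h, mul_h, Subgroup.coe_mul, Subgroup.coe_mul, Perm.mul_apply, Perm.mul_apply, h1.2.1,
        g2.2.1]
    · rw [mul_h, mul_h, Subgroup.coe_mul, Subgroup.coe_mul, mul_inv_rev, mul_inv_rev,
        Perm.mul_apply, Perm.mul_apply, g1.2.2.1, h2.2.2.1]
    · rw [χ_mul, χ_mul, g1.2.2.2, h1.2.2.2]
  · intro i g
    refine ⟨{i, (g.h : Perm ℕ) i}, fun g' hg => ?_⟩
    have g1 := c_eq.mp (hg i (by simp))
    have g2 := c_eq.mp (hg ((g.h : Perm ℕ) i) (by simp))
    rw [c_eq]
    refine ⟨?_, ?_, ?_, ?_⟩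
    · rw [inv_A, inv_A, Finsupp.neg_apply, Finsupp.neg_apply, act_apply, act_apply,
        Subgroup.coe_inv, Subgroup.coe_inv, inv_inv, inv_inv, g1.2.1, g2.1]
    · rw [inv_h, inv_h, Subgroup.coe_inv, Subgroup.coe_inv, g1.2.2.1]
    · rw [inv_h, inv_h, Subgroup.coe_inv, Subgroup.coe_inv, inv_inv, inv_inv, g1.2.1]
    · rw [χ_inv, χ_inv, g1.2.2.2]

instance : T2Space GG := by
  refine t2 c fun g h hgh => ?_
  apply GG.ext
  · ext i
    exact (c_eq.mp (hgh i)).1
  · apply Subtype.ext
    ext i
    exact (c_eq.mp (hgh i)).2.1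

/-- the point stabiliser -/
noncomputable def HH : Subgroup GG where
  carrier := {x | x.A = 0}
  one_mem' := rfl
  mul_mem' := by
    intro x y hx hy
    show (x * y).A = 0
    rw [mul_A, show x.A = 0 from hx, show y.A = 0 from hy, map_zero, add_zero]
  inv_mem' := by
    intro x hx
    show x⁻¹.A = 0
    rw [inv_A, show x.A = 0 from hx, map_zero, neg_zero]

theorem isClosed_HH : IsClosed (HH : Set GG) := by
  have : (HH : Set GG) = ⋂ i : ℕ, {x : GG | (c i x).1 = 0} := by
    ext x
    simp only [mem_iInter]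
    constructor
    · intro h i
      show x.A i = 0
      rw [show x.A = 0 from h]
      rfl
    · intro h
      exact Finsupp.ext h
  rw [this]
  exact isClosed_iInter fun i => isClosed_fiber c i (fun p => p.1 = 0)

/-- a subgroup which is stable under conjugation by `HH` and contains a nonzero vector contains all
even vectors -/
theorem contains_even (K : Subgroup GG) (hK : ∀ (k : FSym) (x : GG), x ∈ K →
    (⟨0, k⟩ : GG) * x * (⟨0, k⟩ : GG)⁻¹ ∈ K) (A : V) (hA : A ≠ 0) (hAK : (⟨A, 1⟩ : GG) ∈ K) (B : V)
    (hB : par B = 0) : (⟨B, 1⟩ : GG) ∈ K := by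
  classical
  let L : AddSubgroup V :=
    { carrier := {B | (⟨B, 1⟩ : GG) ∈ K}
      zero_mem' := K.one_mem
      add_mem' := by
        intro a b ha hb
        have := K.mul_mem ha hb
        have e : (⟨a, 1⟩ : GG) * ⟨b, 1⟩ = ⟨a + b, 1⟩ := by
          apply GG.ext
          · rw [mul_A]
            simp only [act_one]
          · rw [mul_h]
            simp
        rw [e] at this
        exact this
      neg_mem' := by
        intro a ha
        have := K.inv_mem ha
        have e : (⟨a, 1⟩ : GG)⁻¹ = ⟨-a, 1⟩ := by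
          apply GG.ext
          · rw [inv_A]
            simp only [inv_one, act_one]
          · rw [inv_h]
            simp
        rw [e] at this
        exact this }
  have hL : ∀ (k : FSym) (a : V), a ∈ L → act k a ∈ L := by
    intro k a ha
    have := hK k _ ha
    have e : (⟨0, k⟩ : GG) * ⟨a, 1⟩ * (⟨0, k⟩ : GG)⁻¹ = ⟨act k a, 1⟩ := by
      apply GG.ext
      · rw [mul_A, mul_A, inv_A]
        simp
      · rw [mul_h, mul_h, inv_h]
        simp
    rw [e] at this
    exact this
  have hAL : A ∈ L := hAK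
  -- a pair
  obtain ⟨a, ha⟩ : ∃ a, A a ≠ 0 := by
    by_contra hcon
    push Not at hcon
    exact hA (Finsupp.ext hcon)
  obtain ⟨b, hb⟩ : ∃ b, A b = 0 := by
    refine ⟨A.support.sup id + 1, ?_⟩
    by_contra hcon
    have h1 : id (A.support.sup id + 1) ≤ A.support.sup id :=
      Finset.le_sup (f := id) (Finsupp.mem_support_iff.mpr hcon)
    simp only [id] at h1
    omega
  have hab : a ≠ b := by
    rintro rfl
    exact ha hb
  have h01 : ∀ x : ZMod 2, x ≠ 0 → x = 1 := by decide
  have hpair : (Finsupp.single a 1 + Finsupp.single b 1 : V) ∈ L := by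
    have h1 := L.add_mem hAL (hL (tp a b) A hAL)
    have e : A + act (tp a b) A = (Finsupp.single a 1 + Finsupp.single b 1 : V) := by
      ext i
      rw [Finsupp.add_apply, Finsupp.add_apply, act_apply, tp_coe, swap_inv]
      by_cases h2 : i = a
      · subst h2
        rw [swap_apply_left, hb, h01 _ ha, Finsupp.single_eq_same,
          Finsupp.single_eq_of_ne hab]
      · by_cases h3 : i = b
        · subst h3
          rw [swap_apply_right, hb, h01 _ ha, Finsupp.single_eq_same,
            Finsupp.single_eq_of_ne h2, add_comm]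
        · rw [swap_apply_of_ne_of_ne h2 h3, Finsupp.single_eq_of_ne h2,
            Finsupp.single_eq_of_ne h3]
          have : ∀ x : ZMod 2, x + x = 0 + 0 := by decide
          exact this _
    rw [e] at h1
    exact h1
  have hpair' : ∀ i j : ℕ, i ≠ j → (Finsupp.single i 1 + Finsupp.single j 1 : V) ∈ L := by
    intro i j hij
    have h1 := hL (tp (swap a i b) j * tp a i) _ hpair
    rw [map_add, act_single, act_single] at h1
    have e1 : ((tp (swap a i b) j * tp a i : FSym) : Perm ℕ) a = i := by
      rw [Subgroup.coe_mul, Perm.mul_apply, tp_coe, tp_coe, swap_apply_left]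
      refine swap_apply_of_ne_of_ne ?_ hij
      intro h
      have : swap a i a = swap a i b := by rw [swap_apply_left, ← h]
      exact hab ((swap a i).injective this)
    have e2 : ((tp (swap a i b) j * tp a i : FSym) : Perm ℕ) b = j := by
      rw [Subgroup.coe_mul, Perm.mul_apply, tp_coe, tp_coe, swap_apply_left]
    rw [e1, e2] at h1
    exact h1
  -- all even vectors
  have hall : ∀ B : V, B + Finsupp.single 0 (par B) ∈ L := by
    intro B
    induction B using Finsupp.induction_linear with
    | zero =>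
      rw [map_zero, Finsupp.single_zero, add_zero]
      exact L.zero_mem
    | add f g hf hg =>
      have := L.add_mem hf hg
      rw [map_add, Finsupp.single_add]
      convert this using 1
      abel
    | single i x =>
      rw [par_single]
      by_cases hx : x = 0
      · rw [hx, Finsupp.single_zero, Finsupp.single_zero, add_zero]
        exact L.zero_mem
      · rw [h01 x hx]
        by_cases hi : i = 0
        · rw [hi, ← Finsupp.single_add]
          have : (1 + 1 : ZMod 2) = 0 := by decide
          rw [this, Finsupp.single_zero]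
          exact L.zero_mem
        · exact hpair' i 0 hi
  have := hall B
  rw [hB, Finsupp.single_zero, add_zero] at this
  exact this

theorem irreducible_HH : IrreducibleCoset HH := by
  classical
  refine ⟨isClosed_HH, ?_, ?_⟩
  · intro h
    have : (⟨Finsupp.single 0 1, 1⟩ : GG) ∈ HH := by
      rw [h]
      trivial
    have h1 : (Finsupp.single 0 1 : V) = 0 := this
    rw [Finsupp.single_eq_zero] at h1
    exact one_ne_zero h1
  · intro K hKc hHK
    by_cases hKH : K ≤ HH
    · exact Or.inl (le_antisymm hKH hHK)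
    · right
      obtain ⟨x, hx, hxH⟩ := SetLike.not_le_iff_exists.mp hKH
      have hk : ∀ k : FSym, (⟨0, k⟩ : GG) ∈ K := fun k => hHK rfl
      have hAK : (⟨x.A, 1⟩ : GG) ∈ K := by
        have := K.mul_mem hx (K.inv_mem (hk x.h))
        have e : x * (⟨0, x.h⟩ : GG)⁻¹ = ⟨x.A, 1⟩ := by
          apply GG.ext
          · rw [mul_A, inv_A]
            simp
          · rw [mul_h, inv_h]
            simp
        rw [e] at this
        exact this
      have hev := contains_even K (fun k y hy => K.mul_mem (K.mul_mem (hk k) hy) (K.inv_mem (hk k)))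
        x.A hxH hAK
      have hmem : ∀ y : GG, par y.A = 0 → y ∈ K := by
        intro y hy
        have := K.mul_mem (hev y.A hy) (hk y.h)
        have e : (⟨y.A, 1⟩ : GG) * ⟨0, y.h⟩ = y := by
          apply GG.ext
          · rw [mul_A]
            simp
          · rw [mul_h]
            simp
        rw [e] at this
        exact this
      rw [eq_top_iff]
      intro g _
      by_contra hg
      have hopen : IsOpen ((K : Set GG)ᶜ) := hKc.isOpen_compl
      obtain ⟨S, hS⟩ := hopen g hg
      -- far away points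
      obtain ⟨n, hn⟩ : ∃ n, ∀ s ∈ S, s < n ∧ (g.h : Perm ℕ)⁻¹ s < n := by
        refine ⟨S.sup id + S.sup (fun s => (g.h : Perm ℕ)⁻¹ s) + 1, fun s hs => ?_⟩
        have h1 : id s ≤ S.sup id := Finset.le_sup (f := id) hs
        have h2 : (g.h : Perm ℕ)⁻¹ s ≤ S.sup (fun s => (g.h : Perm ℕ)⁻¹ s) :=
          Finset.le_sup (f := fun s => (g.h : Perm ℕ)⁻¹ s) hs
        simp only [id] at h1
        omega
      by_cases hpar : par g.A = 0
      · exact hg (hmem g hpar)
      · have h01 : ∀ x : ZMod 2, x ≠ 0 → x = 1 := by decide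
        have hpar1 := h01 _ hpar
        let k : GG := ⟨g.A + Finsupp.single n 1, g.h * tp n (n + 1)⟩
        have hk1 : par k.A = 0 := by
          show par (g.A + Finsupp.single n 1) = 0
          rw [map_add, par_single, hpar1]
          decide
        refine hS k (fun s hs => ?_) (hmem k hk1)
        obtain ⟨h1, h2⟩ := hn s hs
        rw [c_eq]
        refine ⟨?_, ?_, ?_, ?_⟩
        · show (g.A + Finsupp.single n 1 : V) s = g.A s
          rw [Finsupp.add_apply, Finsupp.single_eq_of_ne (by omega), add_zero]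
        · show ((g.h * tp n (n + 1) : FSym) : Perm ℕ) s = _
          rw [Subgroup.coe_mul, Perm.mul_apply, tp_coe, swap_apply_of_ne_of_ne (by omega) (by omega)]
        · show ((g.h * tp n (n + 1) : FSym) : Perm ℕ)⁻¹ s = _
          rw [Subgroup.coe_mul, mul_inv_rev, Perm.mul_apply, tp_coe, swap_inv,
            swap_apply_of_ne_of_ne (by omega) (by omega)]
        · show u (par (g.A + Finsupp.single n 1)) * fsgn (g.h * tp n (n + 1)) = u (par g.A) * fsgn g.h
          rw [map_add, par_single, hpar1, map_mul, fsgn_tp (by omega)]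
          have e1 : u (1 + 1) = 1 := by decide
          have e2 : u 1 = -1 := by decide
          rw [e1, e2]
          simp

theorem core_HH : HH.normalCore = ⊥ := by
  rw [Subgroup.eq_bot_iff_forall]
  intro x hx
  have hA : x.A = 0 := Subgroup.normalCore_le HH hx
  apply GG.ext
  · exact hA
  · apply Subtype.ext
    ext i
    have h1 : (⟨Finsupp.single i 1, 1⟩ : GG) * x * (⟨Finsupp.single i 1, 1⟩ : GG)⁻¹ ∈ HH := hx _
    have h2 : ((⟨Finsupp.single i 1, 1⟩ : GG) * x * (⟨Finsupp.single i 1, 1⟩ : GG)⁻¹).A = 0 := h1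
    rw [mul_A, mul_A, mul_h, inv_A, hA] at h2
    simp only [map_zero, add_zero, one_mul, inv_one, act_one, map_neg] at h2
    rw [act_single] at h2
    have h3 : (Finsupp.single i 1 : V) = Finsupp.single ((x.h : Perm ℕ) i) 1 := by
      rw [← sub_eq_zero, sub_eq_add_neg]
      exact h2
    have h4 := (Finsupp.single_left_injective (one_ne_zero : (1 : ZMod 2) ≠ 0)) h3
    rw [one_h]
    exact h4.symm

/-- the minimal normal subgroup -/
noncomputable def MM : Subgroup GG where
  carrier := {x | x.h = 1 ∧ par x.A = 0}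
  one_mem' := ⟨rfl, map_zero _⟩
  mul_mem' := by
    rintro x y ⟨hx, hx'⟩ ⟨hy, hy'⟩
    refine ⟨?_, ?_⟩
    · rw [mul_h, hx, hy, mul_one]
    · rw [mul_A, map_add, par_act, hx', hy', add_zero]
  inv_mem' := by
    rintro x ⟨hx, hx'⟩
    refine ⟨?_, ?_⟩
    · rw [inv_h, hx, inv_one]
    · rw [inv_A, map_neg, par_act, hx', neg_zero]

theorem isClosed_MM : IsClosed (MM : Set GG) := by
  have : (MM : Set GG) = ⋂ i : ℕ, ({x : GG | (c i x).2.1 = i} ∩ {x : GG | (c i x).2.2.2 = 1}) := by
    ext x
    simp only [mem_iInter]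
    constructor
    · rintro ⟨h1, h2⟩ i
      refine ⟨?_, ?_⟩
      · show (x.h : Perm ℕ) i = i
        rw [h1]
        rfl
      · show u (par x.A) * fsgn x.h = 1
        rw [h1, h2, map_one]
        rfl
    · intro h
      have h1 : x.h = 1 := by
        apply Subtype.ext
        ext i
        exact (h i).1
      refine ⟨h1, ?_⟩
      have h2 : u (par x.A) * fsgn x.h = 1 := (h 0).2
      rw [h1, map_one, mul_one] at h2
      exact u_eq_one.mp h2
  rw [this]
  exact isClosed_iInter fun i => (isClosed_fiber c i (fun p => p.2.1 = i)).inter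
    (isClosed_fiber c i (fun p => p.2.2.2 = 1))

theorem normal_MM : MM.Normal := by
  constructor
  rintro x ⟨h1, h2⟩ g
  refine ⟨?_, ?_⟩
  · rw [mul_h, mul_h, h1, inv_h, mul_one, mul_inv_cancel]
  · rw [mul_A, mul_A, inv_A, mul_h, h1, mul_one]
    simp only [map_neg, map_add, par_act, h2, add_zero]
    exact add_neg_cancel _

theorem min_MM : MinClosedNormal MM := by
  refine ⟨⟨isClosed_MM, normal_MM, ?_⟩, ?_⟩
  · intro h
    have h1 : (⟨Finsupp.single 0 1 + Finsupp.single 1 1, 1⟩ : GG) ∈ MM := ⟨rfl, by
      show par (Finsupp.single 0 1 + Finsupp.single 1 1) = 0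
      rw [map_add, par_single, par_single]
      decide⟩
    rw [h, Subgroup.mem_bot] at h1
    have h2 := DFunLike.congr_fun (congrArg GG.A h1) 0
    have h3 : (Finsupp.single 0 1 + Finsupp.single 1 1 : V) 0 = 0 := h2
    rw [Finsupp.add_apply, Finsupp.single_eq_same, Finsupp.single_eq_of_ne (by omega)] at h3
    exact absurd h3 (by decide)
  · intro N _ hN hN0 hNM
    refine le_antisymm hNM ?_
    obtain ⟨x, hx, hx1⟩ : ∃ x ∈ N, x ≠ 1 := by
      by_contra hcon
      push Not at hcon
      exact hN0 ((Subgroup.eq_bot_iff_forall _).mpr hcon)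
    obtain ⟨h1, h2⟩ := hNM hx
    have hx' : (⟨x.A, 1⟩ : GG) = x := by
      apply GG.ext
      · rfl
      · exact h1.symm
    have hA : x.A ≠ 0 := by
      intro h
      apply hx1
      apply GG.ext
      · exact h
      · exact h1
    rintro y ⟨h3, h4⟩
    have hy' : (⟨y.A, 1⟩ : GG) = y := by
      apply GG.ext
      · rfl
      · exact h3.symm
    rw [← hy']
    exact contains_even N (fun k z hz => hN.conj_mem z hz _) x.A hA (by rwa [hx']) y.A h4

theorem comm_of_h {x y : GG} (hx : x.h = 1) (hy : y.h = 1) : x * y = y * x := by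
  apply GG.ext
  · rw [mul_A, mul_A, hx, hy, act_one, act_one, add_comm]
  · rw [mul_h, mul_h, hx, hy]

/-- Q1 has a positive answer: there is a (Hausdorff) topological group `G` with a closed subgroup
`H` such that `G ⧸ H` is a faithful irreducible coset space, and an abelian minimal closed normal
subgroup `M` of `G` which is properly contained in its centraliser. -/
theorem result : ∃ (G : Type) (_ : Group G) (_ : TopologicalSpace G) (H M : Subgroup G),
    IsTopologicalGroup G ∧ T2Space G ∧ IrreducibleCoset H ∧ H.normalCore = ⊥ ∧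
    MinClosedNormal M ∧ (∀ a ∈ M, ∀ b ∈ M, a * b = b * a) ∧
    M < Subgroup.centralizer (M : Set G) := by
  refine ⟨GG, inferInstance, inferInstance, HH, MM, inferInstance, inferInstance, irreducible_HH,
    core_HH, min_MM, fun a ha b hb => comm_of_h ha.1 hb.1, ?_⟩
  rw [SetLike.lt_iff_le_and_exists]
  refine ⟨fun x hx => ?_, ⟨Finsupp.single 0 1, 1⟩, ?_, ?_⟩
  · rw [Subgroup.mem_centralizer_iff]
    exact fun y hy => comm_of_h hy.1 hx.1
  · rw [Subgroup.mem_centralizer_iff]
    exact fun y hy => comm_of_h hy.1 rfl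
  · rintro ⟨-, h⟩
    have : par (Finsupp.single 0 1) = 0 := h
    rw [par_single] at this
    exact one_ne_zero this

end Pool.Agent.Results.MP_f36f0e_al.AbelianNotSelfCentralising
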